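import Pool.Agent.Helper202_BG.Main2

/-!
Every affine PI weak Hopf algebra which is left and right noetherian has finite injective
dimension on both sides.
-/

set_option autoImplicit false

open scoped TensorProduct

namespace Pool.Agent.Results.MP_c14890_al.AffinePI

/-- A weak Hopf algebra over a field which is left and right noetherian, finitely generated as an
algebra, and satisfies a nonzero polynomial identity, has finite injective dimension as a left
module and as a right module over itself. -/
theorem result :
  ∀ (k : Type) [Field k] (H : Type) [Ring H] [Algebra k H] [Coalgebra k H],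
    (∀ x y : H, CoalgebraStruct.comul (R := k) (A := H) (x * y)
        = CoalgebraStruct.comul (R := k) (A := H) x * CoalgebraStruct.comul (R := k) (A := H) y) →
    (TensorProduct.assoc k H H H
        (LinearMap.rTensor H (CoalgebraStruct.comul (R := k) (A := H))
          (CoalgebraStruct.comul (R := k) (A := H) (1 : H)))
      = TensorProduct.assoc k H H H (CoalgebraStruct.comul (R := k) (A := H) (1 : H) ⊗ₜ[k] (1 : H))
          * ((1 : H) ⊗ₜ[k] CoalgebraStruct.comul (R := k) (A := H) (1 : H))
     ∧ TensorProduct.assoc k H H H
        (LinearMap.rTensor H (CoalgebraStruct.comul (R := k) (A := H))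
          (CoalgebraStruct.comul (R := k) (A := H) (1 : H)))
      = ((1 : H) ⊗ₜ[k] CoalgebraStruct.comul (R := k) (A := H) (1 : H))
          * TensorProduct.assoc k H H H (CoalgebraStruct.comul (R := k) (A := H) (1 : H) ⊗ₜ[k] (1 : H))) →
    (∀ x y z : H,
      CoalgebraStruct.counit (R := k) (A := H) (x * y * z)
        = LinearMap.mul' k k (TensorProduct.map
            (CoalgebraStruct.counit (R := k) (A := H) ∘ₗ LinearMap.mulLeft k x)
            (CoalgebraStruct.counit (R := k) (A := H) ∘ₗ LinearMap.mulRight k z)
            (CoalgebraStruct.comul (R := k) (A := H) y))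
      ∧ CoalgebraStruct.counit (R := k) (A := H) (x * y * z)
        = LinearMap.mul' k k (TensorProduct.map
            (CoalgebraStruct.counit (R := k) (A := H) ∘ₗ LinearMap.mulLeft k x)
            (CoalgebraStruct.counit (R := k) (A := H) ∘ₗ LinearMap.mulRight k z)
            (TensorProduct.comm k H H (CoalgebraStruct.comul (R := k) (A := H) y)))) →
    (∃ S : H →ₗ[k] H, ∀ x : H,
      LinearMap.mul' k H (TensorProduct.map LinearMap.id S (CoalgebraStruct.comul (R := k) (A := H) x))
        = TensorProduct.lid k H (TensorProduct.map
            (CoalgebraStruct.counit (R := k) (A := H) ∘ₗ LinearMap.mulRight k x) LinearMap.id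
            (CoalgebraStruct.comul (R := k) (A := H) (1 : H)))
      ∧ LinearMap.mul' k H (TensorProduct.map S LinearMap.id (CoalgebraStruct.comul (R := k) (A := H) x))
        = TensorProduct.rid k H (TensorProduct.map LinearMap.id
            (CoalgebraStruct.counit (R := k) (A := H) ∘ₗ LinearMap.mulLeft k x)
            (CoalgebraStruct.comul (R := k) (A := H) (1 : H)))
      ∧ LinearMap.mul' k H (TensorProduct.map (LinearMap.mul' k H ∘ₗ TensorProduct.map S LinearMap.id) S
            (LinearMap.rTensor H (CoalgebraStruct.comul (R := k) (A := H))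
              (CoalgebraStruct.comul (R := k) (A := H) x)))
        = S x) →
    IsNoetherianRing H → IsNoetherianRing Hᵐᵒᵖ →
    Algebra.FiniteType k H →
    (∃ (m : ℕ) (f : FreeAlgebra k (Fin m)), f ≠ 0 ∧
      ∀ a : Fin m → H, FreeAlgebra.lift k a f = 0) →
    (∃ n : ℕ, CategoryTheory.HasInjectiveDimensionLT (ModuleCat.of H H) n) ∧
    (∃ n : ℕ, CategoryTheory.HasInjectiveDimensionLT (ModuleCat.of Hᵐᵒᵖ H) n) := by
  intro k _ H _ _ _ h1 h2 h3 h4 h5 h6 h7 h8
  obtain ⟨S, hS⟩ := h4
  exact Pool.Agent.Helper202_BG.all_twosided k H S
    { comul_mul := h1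
      comul_one₁ := h2.1
      comul_one₂ := h2.2
      counit_mul₁ := fun x y z => (h3 x y z).1
      counit_mul₂ := fun x y z => (h3 x y z).2
      antipode₁ := fun x => (hS x).1
      antipode₂ := fun x => (hS x).2.1
      antipode₃ := fun x => (hS x).2.2 } h8

end Pool.Agent.Results.MP_c14890_al.AffinePI
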